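import Mathlib
import Pool.Agent.P.MP_dee721_co.Gadget

/-!
The number of dimensions of rigid facets of the Vietoris-Rips complex of the cube is exponential
in the scale `r` once `n` is large.
-/

namespace Pool.Agent.Results.MP_dee721_co.Exponential

/-- The cube `Q_n = {±1}^n`; the unit group of the integers is `{1, -1}`. -/
abbrev Q (n : ℕ) : Type := Fin n → ℤˣ

/-- Simplices of `VR(Q_n; r)`: non-empty subsets of Hamming diameter at most `r`. -/
def IsSimplex {n : ℕ} (r : ℕ) (σ : Finset (Q n)) : Prop :=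
  σ.Nonempty ∧ ∀ x ∈ σ, ∀ y ∈ σ, hammingDist x y ≤ r

/-- Facets: simplices that are maximal under inclusion. -/
def IsFacet {n : ℕ} (r : ℕ) (σ : Finset (Q n)) : Prop :=
  IsSimplex r σ ∧ ∀ τ : Finset (Q n), IsSimplex r τ → σ ⊆ τ → τ = σ

/-- Rigidity: for every `x ∈ σ` the maximum over `y ∈ σ` of `d(x, y)` equals `r`. -/
def IsRigid {n : ℕ} (r : ℕ) (σ : Finset (Q n)) : Prop :=
  ∀ x ∈ σ, σ.sup (fun y => hammingDist x y) = r

/-- `f n r` is the number of distinct dimensions `|σ| - 1` of rigid facets `σ` of `VR(Q_n; r)`. -/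
noncomputable def f (n r : ℕ) : ℕ :=
  {d : ℕ | ∃ σ : Finset (Q n), IsFacet r σ ∧ IsRigid r σ ∧ d = σ.card - 1}.ncard

open Pool.Agent.P.MP_dee721_co in
theorem facet_rigid_of_good {n r : ℕ} {σ : Finset (Q n)} (h : Good r σ) :
    IsFacet r σ ∧ IsRigid r σ := by
  refine ⟨⟨⟨h.ne, h.diam⟩, fun τ hτ hst => ?_⟩, fun x hx => ?_⟩
  · refine Finset.Subset.antisymm (fun x hx => ?_) hst
    by_contra hxs
    obtain ⟨y, hy, hxy⟩ := h.maxi x hxs
    exact absurd (hτ.2 x hx y (hst hy)) (not_le.2 hxy)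
  · refine le_antisymm (Finset.sup_le fun y hy => h.diam x hx y hy) ?_
    obtain ⟨y, hy, hxy⟩ := h.rigid x hx
    rw [← hxy]
    exact Finset.le_sup (f := fun y => hammingDist x y) hy

open Pool.Agent.P.MP_dee721_co in
theorem explicit_bound (r n : ℕ) (hr : 6 ≤ r) (hn : r + 2 ≤ n) : 2 ^ (r - 6) + 1 ≤ f n r := by
  have hfin : {d : ℕ | ∃ σ : Finset (Q n), IsFacet r σ ∧ IsRigid r σ ∧ d = σ.card - 1}.Finite := by
    refine (Set.finite_range (fun σ : Finset (Q n) => σ.card - 1)).subset ?_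
    rintro d ⟨σ, -, -, rfl⟩
    exact ⟨σ, rfl⟩
  have hpow : 2 ^ r = 64 * 2 ^ (r - 6) := by
    obtain ⟨k, rfl⟩ := Nat.exists_eq_add_of_le hr
    rw [Nat.add_sub_cancel_left, pow_add]
    norm_num
  have hpos : 0 < 2 ^ (r - 6) := by positivity
  have h1 : (Finset.range (2 ^ (r - 6) + 1) : Set ℕ).ncard = 2 ^ (r - 6) + 1 := by
    rw [Set.ncard_coe_finset, Finset.card_range]
  rw [← h1]
  refine Set.ncard_le_ncard_of_injOn (fun j => 2 ^ r - 2 * j - 1) ?_ ?_ hfin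
  · intro j hj
    have hj' : j ≤ 2 ^ (r - 6) := by simpa [Nat.lt_succ_iff] using hj
    obtain ⟨σ, hσ, hc⟩ := exists_good r n j hr hn hj'
    obtain ⟨h2, h3⟩ := facet_rigid_of_good hσ
    exact ⟨σ, h2, h3, by omega⟩
  · intro i hi j hj hij
    have hi' : i ≤ 2 ^ (r - 6) := by simpa [Nat.lt_succ_iff] using hi
    have hj' : j ≤ 2 ^ (r - 6) := by simpa [Nat.lt_succ_iff] using hj
    simp only at hij
    omega

theorem result : ∃ c : ℝ, 0 < c ∧ ∃ r₀ : ℕ, ∀ r : ℕ, r₀ ≤ r → ∃ n₀ : ℕ, ∀ n : ℕ, n₀ ≤ n →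
    Real.exp (c * r) ≤ (f n r : ℝ) := by
  refine ⟨Real.log 2 / 2, by have := Real.log_pos (one_lt_two (α := ℝ)); positivity, 12,
    fun r hr => ⟨r + 2, fun n hn => ?_⟩⟩
  have h := explicit_bound r n (by omega) hn
  have h1 : ((2 ^ (r - 6) + 1 : ℕ) : ℝ) ≤ (f n r : ℝ) := by exact_mod_cast h
  have h2 : Real.exp (Real.log 2 / 2 * r) ≤ Real.exp (((r - 6 : ℕ) : ℝ) * Real.log 2) := by
    apply Real.exp_le_exp.2
    have h3 : (r : ℝ) / 2 ≤ ((r - 6 : ℕ) : ℝ) := by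
      rw [Nat.cast_sub (by omega)]
      have : (12 : ℝ) ≤ r := by exact_mod_cast hr
      push_cast
      linarith
    have h4 := Real.log_pos (one_lt_two (α := ℝ))
    nlinarith
  rw [Real.exp_nat_mul, Real.exp_log two_pos] at h2
  push_cast at h1
  linarith

end Pool.Agent.Results.MP_dee721_co.Exponential
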